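import Pool.Agent.TH121.GT.Disjoint
import Pool.Agent.TH121.KT.Final

/-!
# The smallest slopes of products
-/

set_option autoImplicit false

namespace Pool.Agent.TH121.GT

open Polynomial Pool.Agent.TH121.KT

/-- the roots of a minimal polynomial are conjugate -/
theorem exists_conj {P : ℚ[X]} (hP : Irreducible P) {β β' : Qb} (h : aeval β P = 0)
    (h' : aeval β' P = 0) : ∃ g : GQ, g β = β' := by
  have h1 : minpoly ℚ β = minpoly ℚ β' := by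
    rw [← minpoly.eq_of_irreducible hP h, ← minpoly.eq_of_irreducible hP h']
  exact isConjRoot_iff_exists_algEquiv.1 (h1 : IsConjRoot ℚ β β').symm

theorem aeval_conj {P : ℚ[X]} {β : Qb} (h : aeval β P = 0) (g : GQ) : aeval (g β) P = 0 := by
  have h1 : aeval (g β) P = g (aeval β P) :=
    Polynomial.aeval_algHom_apply g.toAlgHom β P
  rw [h1, h, map_zero]

variable {p : ℕ} [Fact p.Prime] {ι : Qb →+* PadicAlgCl p}

/-- the largest absolute value of the conjugates -/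
theorem exists_max (ι : Qb →+* PadicAlgCl p) (γ : Qb) :
    ∃ g : GQ, ∀ h : GQ, ‖ι (h γ)‖ ≤ ‖ι (g γ)‖ := by
  have hγ : IsIntegral ℚ γ := Algebra.IsIntegral.isIntegral γ
  have hfin : (Set.range fun g : GQ => g γ).Finite := by
    refine ((minpoly ℚ γ).rootSet_finite Qb).subset ?_
    rintro _ ⟨g, rfl⟩
    rw [mem_rootSet]
    exact ⟨minpoly.ne_zero hγ, aeval_conj (minpoly.aeval ℚ γ) g⟩
  obtain ⟨x, ⟨g, rfl⟩, hx⟩ := Set.exists_max_image _ (fun x => ‖ι x‖) hfin ⟨γ, 1, rfl⟩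
  exact ⟨g, fun h => hx _ ⟨h, rfl⟩⟩

/-- **The arithmetic part.** -/
theorem split_slopes {Ω : Type*} [Field Ω] [CharZero Ω] [IsAlgClosed Ω] {μ ν lam : Ω}
    {eZ eU E A B S c : ℕ} (hB : 0 < B)
    (hA' : A * eZ = S * E) (hB' : B * eU = S * E) (hrel : μ ^ A * ν ^ B = lam ^ S)
    (hμ : IsIntegral ℤ μ) (hν : IsIntegral ℤ ν) (hlam : IsIntegral ℤ (lam / (p : Ω) ^ (E * c)))
    {F L : IntermediateField ℚ Qb} [FiniteDimensional ℚ F] (hFL : F.LinearDisjoint L)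
    {Q Q' : ℚ[X]} (hQ : SlopesFixed p ι F Q) (hQμ : aeval μ Q = 0) (hQ' : SlopesFixed p ι L Q')
    (hQν : aeval ν Q' = 0)
    (hmin : ∃ m : ℕ, (∀ β : Qb, aeval β (minpoly ℚ μ) = 0 → ‖ι β‖ ≤ ((p : ℝ) ^ (eZ * m))⁻¹) ∧
      ∃ β : Qb, aeval β (minpoly ℚ μ) = 0 ∧ ‖ι β‖ = ((p : ℝ) ^ (eZ * m))⁻¹) :
    ∃ c₁ c₂, c₁ + c₂ = c ∧ IsIntegral ℤ (μ / (p : Ω) ^ (eZ * c₁)) ∧
      IsIntegral ℤ (ν / (p : Ω) ^ (eU * c₂)) := by
  have hp1 : (1 : ℝ) < p := by exact_mod_cast (Fact.out : p.Prime).one_lt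
  have hp0 : (0 : ℝ) < p := zero_lt_one.trans hp1
  have hpΩ : (p : Ω) ≠ 0 := by exact_mod_cast (Fact.out : p.Prime).ne_zero
  let τ : Qb →+* Ω := (IsAlgClosed.lift : Qb →ₐ[ℚ] Ω).toRingHom
  have hint : ∀ {x : Qb}, IsIntegral ℤ (τ x) → IsIntegral ℤ x := fun {x} hx =>
    (isIntegral_algHom_iff τ.toIntAlgHom τ.injective).1 hx
  have hint' : ∀ {x : Qb}, IsIntegral ℤ x → IsIntegral ℤ (τ x) := fun {x} hx =>
    hx.map τ.toIntAlgHom
  have hμQ : IsIntegral ℚ μ := hμ.tower_top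
  have hνQ : IsIntegral ℚ ν := hν.tower_top
  have hlamZ : IsIntegral ℤ lam := by
    have h1 : lam = (lam / (p : Ω) ^ (E * c)) * ((p ^ (E * c) : ℕ) : Ω) := by
      push_cast
      rw [div_mul_cancel₀ _ (pow_ne_zero _ hpΩ)]
    rw [h1]
    exact hlam.mul (isIntegral_natCast _)
  obtain ⟨m, hbound, β₀, hβ₀, hβ₀n⟩ := hmin
  obtain ⟨β, hβ, hτβ⟩ := exists_root τ (minpoly.ne_zero hμQ) (minpoly.aeval ℚ μ)
  obtain ⟨γ, hγ, hτγ⟩ := exists_root τ (minpoly.ne_zero hνQ) (minpoly.aeval ℚ ν)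
  obtain ⟨δ, -, hτδ⟩ := exists_root τ (minpoly.ne_zero (hlamZ.tower_top (A := ℚ)))
    (minpoly.aeval ℚ lam)
  have hβZ : IsIntegral ℤ β := hint (by rw [hτβ]; exact hμ)
  have hγZ : IsIntegral ℤ γ := hint (by rw [hτγ]; exact hν)
  have hδ : IsIntegral ℤ (δ / (p : Qb) ^ (E * c)) := by
    apply hint
    rw [map_div₀, map_pow, map_natCast, hτδ]
    exact hlam
  have hrel' : β ^ A * γ ^ B = δ ^ S := by
    apply τ.injective
    rw [map_mul, map_pow, map_pow, map_pow, hτβ, hτγ, hτδ, hrel]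
  -- the automorphism
  obtain ⟨g₁, hg₁⟩ := exists_conj (minpoly.irreducible hμQ) hβ hβ₀
  obtain ⟨g₂, hg₂⟩ := exists_max ι γ
  obtain ⟨s, t, hs, ht, hst⟩ := factor_of_linearDisjoint hFL (g₁ * g₂⁻¹)
  have hs' : ∀ x ∈ F, s⁻¹ x = x := by
    intro x hx
    have h1 : s⁻¹ (s x) = x := by
      change (s⁻¹ * s) x = x
      rw [inv_mul_cancel]
      rfl
    rwa [hs x hx] at h1
  have hg : s⁻¹ * g₁ = t * g₂ := by
    rw [inv_mul_eq_iff_eq_mul, ← mul_assoc, ← hst, inv_mul_cancel_right]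
  have hroot : aeval (g₁ β) Q = 0 :=
    Polynomial.aeval_eq_zero_of_dvd_aeval_eq_zero (minpoly.dvd ℚ μ hQμ) (aeval_conj hβ g₁)
  have hroot' : aeval (g₂ γ) Q' = 0 :=
    Polynomial.aeval_eq_zero_of_dvd_aeval_eq_zero (minpoly.dvd ℚ ν hQν) (aeval_conj hγ g₂)
  have h1 : ‖ι ((s⁻¹ * g₁) β)‖ = ((p : ℝ) ^ (eZ * m))⁻¹ := by
    have h2 := hQ s⁻¹ hs' (g₁ β) hroot
    change ‖ι (s⁻¹ (g₁ β))‖ = _
    rw [h2, hg₁, hβ₀n]
  have h2 : ‖ι ((s⁻¹ * g₁) γ)‖ = ‖ι (g₂ γ)‖ := by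
    rw [hg]
    exact hQ' t ht (g₂ γ) hroot'
  have h3 := norm_le_of_integral_div ι hδ (s⁻¹ * g₁)
  have h4 : ‖ι ((s⁻¹ * g₁) β)‖ ^ A * ‖ι ((s⁻¹ * g₁) γ)‖ ^ B = ‖ι ((s⁻¹ * g₁) δ)‖ ^ S := by
    rw [← norm_pow, ← norm_pow, ← norm_pow, ← norm_mul, ← map_pow, ← map_pow, ← map_pow,
      ← map_pow, ← map_pow, ← map_pow, ← map_mul, ← map_mul, hrel']
  have h5 : ((p : ℝ) ^ (eZ * m))⁻¹ ^ A * ‖ι (g₂ γ)‖ ^ B ≤ ((p : ℝ) ^ (E * c))⁻¹ ^ S := by
    rw [← h1, ← h2, h4]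
    exact pow_le_pow_left₀ (norm_nonneg _) h3 S
  by_cases hmc : c ≤ m
  · refine ⟨c, 0, rfl, ?_, ?_⟩
    · have h6 : IsIntegral ℤ (β / (p : Qb) ^ (eZ * c)) := by
        refine integral_div ι hβZ fun g => (hbound _ (aeval_conj hβ g)).trans ?_
        have h7 : (p : ℝ) ^ (eZ * c) ≤ (p : ℝ) ^ (eZ * m) :=
          pow_le_pow_right₀ hp1.le (Nat.mul_le_mul_left _ hmc)
        exact inv_anti₀ (pow_pos hp0 _) h7
      have h7 := hint' h6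
      rwa [map_div₀, map_pow, map_natCast, hτβ] at h7
    · rw [mul_zero, pow_zero, div_one]
      exact hν
  · push Not at hmc
    obtain ⟨c₂, rfl⟩ := Nat.exists_eq_add_of_le hmc.le
    refine ⟨m, c₂, rfl, ?_, ?_⟩
    · have h6 : IsIntegral ℤ (β / (p : Qb) ^ (eZ * m)) :=
        integral_div ι hβZ fun g => hbound _ (aeval_conj hβ g)
      have h7 := hint' h6
      rwa [map_div₀, map_pow, map_natCast, hτβ] at h7
    · have h6 : ‖ι (g₂ γ)‖ ^ B ≤ (((p : ℝ) ^ (eU * c₂))⁻¹) ^ B := by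
        have e1 : ((p : ℝ) ^ (eZ * m))⁻¹ ^ A = ((p : ℝ) ^ (S * E * m))⁻¹ := by
          rw [inv_pow, ← pow_mul]
          congr 2
          rw [← hA']
          ring
        have e2 : ((p : ℝ) ^ (E * (m + c₂)))⁻¹ ^ S =
            ((p : ℝ) ^ (S * E * m))⁻¹ * ((p : ℝ) ^ (S * E * c₂))⁻¹ := by
          rw [inv_pow, ← pow_mul, ← mul_inv, ← pow_add]
          congr 2
          ring
        have e3 : (((p : ℝ) ^ (eU * c₂))⁻¹) ^ B = ((p : ℝ) ^ (S * E * c₂))⁻¹ := by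
          rw [inv_pow, ← pow_mul]
          congr 2
          rw [← hB']
          ring
        rw [e1, e2] at h5
        rw [e3]
        exact le_of_mul_le_mul_left h5 (inv_pos.2 (pow_pos hp0 _))
      have h7 : ‖ι (g₂ γ)‖ ≤ ((p : ℝ) ^ (eU * c₂))⁻¹ :=
        le_of_pow_le_pow_left₀ hB.ne' (inv_nonneg.2 (pow_nonneg hp0.le _)) h6
      have h8 : IsIntegral ℤ (γ / (p : Qb) ^ (eU * c₂)) :=
        integral_div ι hγZ fun g => (hg₂ g).trans h7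
      have h9 := hint' h8
      rwa [map_div₀, map_pow, map_natCast, hτγ] at h9

end Pool.Agent.TH121.GT
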