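import Pool.Agent.TH121.GT.Defs
import Pool.Agent.W536.RBase

/-!
# The geometric coniveau filtration
-/

set_option autoImplicit false

open CategoryTheory AlgebraicGeometry

universe u v

namespace Pool.Agent.TH121.GT

open Pool.Agent.H914 Pool.Agent.H914.VarClass Pool.Agent.H914.VarClass.Obj
  Pool.Agent.H914.WeilCohomology Pool.Agent.W534

variable {k : Type u} [Field k] {𝒱 : VarClass k} {ops : CycleOps 𝒱}
  {W : WeilCohomology.{u, v} ops} {X Y Z U V Y' : 𝒱.Obj}

/-- the projection to `Y × Z` -/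
noncomputable def q₁ (Y Y' Z U : 𝒱.Obj) : (Y.prod Y').prod (Z.prod U) ⟶ Y.prod Z :=
  lift (fst (Y.prod Y') (Z.prod U) ≫ fst Y Y') (snd (Y.prod Y') (Z.prod U) ≫ fst Z U)

/-- the projection to `Y' × U` -/
noncomputable def q₂ (Y Y' Z U : 𝒱.Obj) : (Y.prod Y').prod (Z.prod U) ⟶ Y'.prod U :=
  lift (fst (Y.prod Y') (Z.prod U) ≫ snd Y Y') (snd (Y.prod Y') (Z.prod U) ≫ snd Z U)

lemma map_q₁_fst (a : W.H Y) : W.map (q₁ Y Y' Z U) (W.map (fst Y Z) a) =
    W.map (fst (Y.prod Y') (Z.prod U)) (W.map (fst Y Y') a) := by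
  rw [← W.map_comp, q₁, lift_fst, W.map_comp]

lemma map_q₁_snd (a : W.H Z) : W.map (q₁ Y Y' Z U) (W.map (snd Y Z) a) =
    W.map (snd (Y.prod Y') (Z.prod U)) (W.map (fst Z U) a) := by
  rw [← W.map_comp, q₁, lift_snd, W.map_comp]

lemma map_q₂_fst (a : W.H Y') : W.map (q₂ Y Y' Z U) (W.map (fst Y' U) a) =
    W.map (fst (Y.prod Y') (Z.prod U)) (W.map (snd Y Y') a) := by
  rw [← W.map_comp, q₂, lift_fst, W.map_comp]

lemma map_q₂_snd (a : W.H U) : W.map (q₂ Y Y' Z U) (W.map (snd Y' U) a) =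
    W.map (snd (Y.prod Y') (Z.prod U)) (W.map (snd Z U) a) := by
  rw [← W.map_comp, q₂, lift_snd, W.map_comp]

/-- push-forward of external products -/
lemma push_prod (A : W.H (Y.prod Z)) (B : W.H (Y'.prod U)) :
    W.push (snd (Y.prod Y') (Z.prod U)) (W.map (q₁ Y Y' Z U) A * W.map (q₂ Y Y' Z U) B) =
      W.map (fst Z U) (W.push (snd Y Z) A) * W.map (snd Z U) (W.push (snd Y' U) B) := by
  refine W.kunneth_induction (p := fun A => W.push (snd (Y.prod Y') (Z.prod U))
    (W.map (q₁ Y Y' Z U) A * W.map (q₂ Y Y' Z U) B) =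
      W.map (fst Z U) (W.push (snd Y Z) A) * W.map (snd Z U) (W.push (snd Y' U) B)) ?_ ?_ A
  · intro a b ha hb
    rw [map_add, add_mul, map_add, ha, hb, map_add, map_add, add_mul]
  · intro i j a ha z hz
    refine W.kunneth_induction (p := fun B => W.push (snd (Y.prod Y') (Z.prod U))
      (W.map (q₁ Y Y' Z U) (W.map (fst Y Z) a * W.map (snd Y Z) z) * W.map (q₂ Y Y' Z U) B) =
        W.map (fst Z U) (W.push (snd Y Z) (W.map (fst Y Z) a * W.map (snd Y Z) z)) *
          W.map (snd Z U) (W.push (snd Y' U) B)) ?_ ?_ B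
    · intro b b' hb hb'
      rw [map_add, mul_add, map_add, hb, hb', map_add, map_add, mul_add]
    · intro i' j' b hb w hw
      rw [W.push_snd, W.push_snd, map_smul, map_smul, smul_mul_smul_comm,
        map_mul (W.map (q₁ Y Y' Z U)), map_mul (W.map (q₂ Y Y' Z U)),
        map_q₁_fst, map_q₁_snd, map_q₂_fst, map_q₂_snd]
      have h1 := W.comm (W.map_mem (snd (Y.prod Y') (Z.prod U)) (W.map_mem (fst Z U) hz))
        (W.map_mem (fst (Y.prod Y') (Z.prod U)) (W.map_mem (snd Y Y') hb))
      have h2 : W.map (fst (Y.prod Y') (Z.prod U)) (W.map (fst Y Y') a) *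
          W.map (snd (Y.prod Y') (Z.prod U)) (W.map (fst Z U) z) *
          (W.map (fst (Y.prod Y') (Z.prod U)) (W.map (snd Y Y') b) *
          W.map (snd (Y.prod Y') (Z.prod U)) (W.map (snd Z U) w)) =
          (-1 : W.K) ^ (j * i') •
          (W.map (fst (Y.prod Y') (Z.prod U)) (W.map (fst Y Y') a * W.map (snd Y Y') b) *
            W.map (snd (Y.prod Y') (Z.prod U)) (W.map (fst Z U) z * W.map (snd Z U) w)) := by
        rw [map_mul (W.map (fst (Y.prod Y') (Z.prod U))),
          map_mul (W.map (snd (Y.prod Y') (Z.prod U)))]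
        calc _ = W.map (fst (Y.prod Y') (Z.prod U)) (W.map (fst Y Y') a) *
              (W.map (snd (Y.prod Y') (Z.prod U)) (W.map (fst Z U) z) *
                W.map (fst (Y.prod Y') (Z.prod U)) (W.map (snd Y Y') b)) *
              W.map (snd (Y.prod Y') (Z.prod U)) (W.map (snd Z U) w) := by
              simp only [mul_assoc]
          _ = _ := by
              rw [h1]
              simp only [mul_assoc, smul_mul_assoc, mul_smul_comm]
      rw [h2, map_smul, W.push_snd, W.tr_prod, smul_smul]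
      by_cases hi : i' = 2 * Y'.dim
      · rw [hi, show j * (2 * Y'.dim) = 2 * (j * Y'.dim) by ring, pow_mul, neg_one_sq, one_pow,
          one_mul]
      · rw [W.tr_eq_zero hb hi]
        simp

/-- **External products and the coniveau filtration.** -/
theorem geom_ext {c c' : ℕ} {a : W.H Z} {b : W.H U} (ha : a ∈ geomConiveau W Z c)
    (hb : b ∈ geomConiveau W U c') :
    W.map (fst Z U) a * W.map (snd Z U) b ∈ geomConiveau W (Z.prod U) (c + c') := by
  induction ha using Submodule.span_induction with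
  | mem a ha =>
    induction hb using Submodule.span_induction with
    | mem b hb =>
      obtain ⟨Y, d, γ, y, hd, hγ, rfl⟩ := ha
      obtain ⟨Y', d', γ', y', hd', hγ', rfl⟩ := hb
      refine Submodule.subset_span ⟨Y.prod Y', d + d', ops.mul (ops.pull (q₁ Y Y' Z U) γ)
        (ops.pull (q₂ Y Y' Z U) γ'), W.map (fst Y Y') y * W.map (snd Y Y') y', by omega, ?_, ?_⟩
      · have h1 := ops.mul_mem (ops.pull_mem (q₁ Y Y' Z U) hγ) (ops.pull_mem (q₂ Y Y' Z U) hγ')
        rwa [show Y.dim + d + (Y'.dim + d') = (Y.prod Y').dim + (d + d') by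
          rw [dim_prod]; ring] at h1
      · rw [← push_prod, W.cl_mul, W.cl_pull, W.cl_pull, map_mul (W.map (q₁ Y Y' Z U)),
          map_mul (W.map (q₂ Y Y' Z U)), map_mul (W.map (fst (Y.prod Y') (Z.prod U))),
          map_q₁_fst, map_q₂_fst]
        congr 1
        have h2 := W.even_comm (W.map_mem (q₂ Y Y' Z U) (W.cl_mem hγ'))
          (W.map (fst (Y.prod Y') (Z.prod U)) (W.map (fst Y Y') y))
        calc W.map (q₁ Y Y' Z U) (W.cl _ γ) * W.map (fst (Y.prod Y') (Z.prod U))
                (W.map (fst Y Y') y) *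
              (W.map (q₂ Y Y' Z U) (W.cl _ γ') * W.map (fst (Y.prod Y') (Z.prod U))
                (W.map (snd Y Y') y'))
            = W.map (q₁ Y Y' Z U) (W.cl _ γ) * (W.map (fst (Y.prod Y') (Z.prod U))
                (W.map (fst Y Y') y) * W.map (q₂ Y Y' Z U) (W.cl _ γ')) *
                W.map (fst (Y.prod Y') (Z.prod U)) (W.map (snd Y Y') y') := by
              simp only [mul_assoc]
          _ = _ := by
              rw [← h2]
              simp only [mul_assoc]
    | zero => rw [map_zero, mul_zero]; exact Submodule.zero_mem _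
    | add x y _ _ hx hy => rw [map_add, mul_add]; exact Submodule.add_mem _ hx hy
    | smul c x _ hx => rw [map_smul, mul_smul_comm]; exact Submodule.smul_mem _ _ hx
  | zero => rw [map_zero, zero_mul]; exact Submodule.zero_mem _
  | add x y _ _ hx hy => rw [map_add, add_mul]; exact Submodule.add_mem _ hx hy
  | smul c x _ hx => rw [map_smul, smul_mul_assoc]; exact Submodule.smul_mem _ _ hx

/-- **Push-forward and the coniveau filtration.** -/
theorem geom_push (f : V ⟶ X) {r c : ℕ} {η : V.Cycles} (hη : V.IsCyc r η) (hr : r + X.dim = V.dim)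
    {w : W.H V} (hw : w ∈ geomConiveau W V c) :
    W.push f (W.cl V η * w) ∈ geomConiveau W X c := by
  induction hw using Submodule.span_induction with
  | mem w hw =>
    obtain ⟨Y, d, γ, y, hd, hγ, rfl⟩ := hw
    let ρ : Y.prod V ⟶ Y.prod X := lift (fst Y V) (snd Y V ≫ f)
    have hρ₁ : ρ ≫ fst Y X = fst Y V := lift_fst _ _
    have hρ₂ : ρ ≫ snd Y X = snd Y V ≫ f := lift_snd _ _
    refine Submodule.subset_span ⟨Y, d, ops.push ρ (ops.mul (ops.pull (snd Y V) η) γ), y, hd, ?_, ?_⟩
    · refine ops.push_mem ρ (ops.mul_mem (ops.pull_mem (snd Y V) hη) hγ) ?_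
      rw [dim_prod, dim_prod]
      omega
    · rw [W.mul_push (snd Y V) (W.cl_mem hη), ← W.push_comp, W.cl_push, W.cl_mul, W.cl_pull,
        ← W.push_mul, ← W.push_comp, hρ₂, ← W.map_comp, hρ₁, mul_assoc]
  | zero => rw [mul_zero, map_zero]; exact Submodule.zero_mem _
  | add x y _ _ hx hy => rw [mul_add, map_add]; exact Submodule.add_mem _ hx hy
  | smul c x _ hx => rw [mul_smul_comm, map_smul]; exact Submodule.smul_mem _ _ hx

/-- From the product to the second factor. -/
theorem geom_of_snd {c : ℕ} (hZ : HasZeroCycle Z) {x : W.H U}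
    (hx : W.map (snd Z U) x ∈ geomConiveau W (Z.prod U) c) : x ∈ geomConiveau W U c := by
  obtain ⟨η, hη, h0⟩ := hZ
  have h1 := geom_push (snd Z U) (ops.pull_mem (fst Z U) hη) (by rw [dim_prod]) hx
  rw [W.cl_pull, W.push_snd, W.tr_cl hη] at h1
  have h2 := Submodule.smul_mem _ ((Z.V.degCycle η : W.K))⁻¹ h1
  rwa [smul_smul, inv_mul_cancel₀ (Rat.cast_ne_zero.2 h0), one_smul] at h2

/-- From the product to the first factor. -/
theorem geom_of_fst {c : ℕ} (hU : HasZeroCycle U) {x : W.H Z}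
    (hx : W.map (fst Z U) x ∈ geomConiveau W (Z.prod U) c) : x ∈ geomConiveau W Z c := by
  obtain ⟨η, hη, h0⟩ := hU
  have h1 := geom_push (fst Z U) (ops.pull_mem (snd Z U) hη) (by rw [dim_prod, add_comm]) hx
  rw [W.cl_pull, W.even_comm (W.map_mem (snd Z U) (W.cl_mem hη))] at h1
  have h3 : W.push (fst Z U) (W.map (fst Z U) x * W.map (snd Z U) (W.cl U η)) =
      W.tr U (W.cl U η) • x := by
    apply W.tr_ext
    intro y
    rw [W.tr_push, mul_assoc, W.even_comm (W.map_mem (snd Z U) (W.cl_mem hη)), ← mul_assoc,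
      ← map_mul, W.tr_prod, smul_mul_assoc, map_smul, smul_eq_mul, mul_comm]
  rw [h3, W.tr_cl hη] at h1
  have h2 := Submodule.smul_mem _ ((U.V.degCycle η : W.K))⁻¹ h1
  rwa [smul_smul, inv_mul_cancel₀ (Rat.cast_ne_zero.2 h0), one_smul] at h2

end Pool.Agent.TH121.GT
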