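import Pool.Agent.TH121.KT.GeoDefs
import Pool.Agent.H914R2.WeilBasic

/-!
# The generalized Tate conjecture: definitions
-/

set_option autoImplicit false

open CategoryTheory AlgebraicGeometry Polynomial

universe u v

namespace Pool.Agent.TH121.GT

open Pool.Agent.H914 Pool.Agent.H914.VarClass Pool.Agent.H914.VarClass.Obj
  Pool.Agent.H914.WeilCohomology Pool.Agent.W534

variable {k : Type u} [Field k] {𝒱 : VarClass k} {ops : CycleOps 𝒱}

/-- The geometric coniveau filtration `N ^ c H(X)`: the sum of the images of the correspondences of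
degree at least `c` from all varieties `Y` of the class, that is of the maps
`y ↦ q_* (cl z * p^* y)` from `H(Y)` to `H(X)`, for the cycles `z` of codimension `dim Y + c'` on
`Y × X`, `c' ≥ c`, with the projections `p` to `Y` and `q` to `X`. (By the resolution of
singularities by alterations this is the sum of the images of the Gysin maps of the morphisms from
smooth projective varieties of dimension at most `dim X - c`.) -/
def geomConiveau (W : WeilCohomology.{u, v} ops) (X : 𝒱.Obj) (c : ℕ) : Submodule W.K (W.H X) :=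
  Submodule.span W.K {x | ∃ (Y : 𝒱.Obj) (c' : ℕ) (z : (Y.prod X).Cycles) (y : W.H Y), c ≤ c' ∧
    (Y.prod X).IsCyc (Y.dim + c') z ∧
    x = W.push (snd Y X) (W.cl (Y.prod X) z * W.map (fst Y X) y)}

/-- The Galois coniveau filtration: the sum of the generalised eigenspaces of the Frobenius
endomorphism of `X` over the field with `q = p ^ Φ.e X` elements for the eigenvalues `μ` such that
`μ / q ^ c` is an algebraic integer. -/
def galoisConiveau {W : WeilCohomology.{u, v} ops} {p : ℕ} (Φ : FrobSystem W p) (X : 𝒱.Obj)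
    (c : ℕ) : Submodule W.K (W.H X) :=
  Submodule.span W.K {x | ∃ μ : W.K, IsIntegral ℤ (μ / (p : W.K) ^ (Φ.e X * c)) ∧
    x ∈ Module.End.maxGenEigenspace (W.map (Φ.Fr X)).toLinearMap μ}

/-- The generalized Tate conjecture for `X` (in all degrees) and the coniveau `c`. -/
def GeneralizedTate {W : WeilCohomology.{u, v} ops} {p : ℕ} (Φ : FrobSystem W p) (X : 𝒱.Obj)
    (c : ℕ) : Prop :=
  galoisConiveau Φ X c ≤ geomConiveau W X c

/-- The eigenvalues of the Frobenius endomorphism of `X` are algebraic integers. -/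
def IntegralEigenvalues {W : WeilCohomology.{u, v} ops} {p : ℕ} (Φ : FrobSystem W p) (X : 𝒱.Obj) :
    Prop :=
  ∀ μ : W.K, Module.End.HasEigenvalue (W.map (Φ.Fr X)).toLinearMap μ → IsIntegral ℤ μ

/-- The smallest slope of the conjugates of each eigenvalue of the Frobenius endomorphism of `X` is
an integer `m`: the largest absolute value at the place `ι` of the conjugates of the eigenvalue is
the absolute value of `q ^ m`, where `q = p ^ Φ.e X`. -/
def IntegralMinSlopes {W : WeilCohomology.{u, v} ops} {p : ℕ} [Fact p.Prime] (Φ : FrobSystem W p)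
    (ι : AlgebraicClosure ℚ →+* PadicAlgCl p) (X : 𝒱.Obj) : Prop :=
  ∀ μ : W.K, Module.End.HasEigenvalue (W.map (Φ.Fr X)).toLinearMap μ →
    ∃ m : ℕ, (∀ β : AlgebraicClosure ℚ, aeval β (minpoly ℚ μ) = 0 →
      ‖ι β‖ ≤ ((p : ℝ) ^ (Φ.e X * m))⁻¹) ∧
      ∃ β : AlgebraicClosure ℚ, aeval β (minpoly ℚ μ) = 0 ∧ ‖ι β‖ = ((p : ℝ) ^ (Φ.e X * m))⁻¹

/-- `X` has a zero-cycle of degree different from zero. -/
def HasZeroCycle (X : 𝒱.Obj) : Prop := ∃ z, X.IsCyc X.dim z ∧ X.V.degCycle z ≠ 0

end Pool.Agent.TH121.GT
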