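import Pool.Agent.TH121.GT.Integral

/-!
# Linearly disjoint fields
-/

set_option autoImplicit false

namespace Pool.Agent.TH121.GT

open Polynomial Pool.Agent.TH121.KT

/-- **Factorization.** If `F` and `L` are linearly disjoint, then each automorphism is the product
of an automorphism over `F` and of an automorphism over `L`. -/
theorem factor_of_linearDisjoint {F L : IntermediateField ℚ Qb} [FiniteDimensional ℚ F]
    (h : F.LinearDisjoint L) (g : GQ) :
    ∃ s t : GQ, (∀ x ∈ F, s x = x) ∧ (∀ x ∈ L, t x = x) ∧ g = s * t := by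
  obtain ⟨θ, hθ⟩ := Field.exists_primitive_element ℚ F
  have hθi : IsIntegral ℚ θ := Algebra.IsIntegral.isIntegral θ
  have hθL : IsIntegral L (θ : Qb) := Algebra.IsIntegral.isIntegral _
  have hmin : minpoly ℚ (θ : Qb) = minpoly ℚ θ := minpoly.algebraMap_eq
    (FaithfulSMul.algebraMap_injective F Qb) θ
  let n := (minpoly ℚ θ).natDegree
  have hLI : LinearIndependent L (fun i : Fin n => (θ : Qb) ^ (i : ℕ)) := by
    have h1 := h.linearIndependent_left (linearIndependent_pow (K := ℚ) θ)
    exact h1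
  have hdeg : n ≤ (minpoly L (θ : Qb)).natDegree := by
    by_contra hlt
    push Not at hlt
    have h1 := Fintype.linearIndependent_iff.1 hLI
      (fun i => (minpoly L (θ : Qb)).coeff i) (by
        rw [Fin.sum_univ_eq_sum_range (fun i => (minpoly L (θ : Qb)).coeff i • (θ : Qb) ^ i) n,
          ← aeval_eq_sum_range' hlt, minpoly.aeval]) ⟨_, hlt⟩
    have h2 := minpoly.monic hθL
    rw [Monic, leadingCoeff] at h2
    exact one_ne_zero (h2.symm.trans h1)
  have hPm : ((minpoly ℚ (θ : Qb)).map (algebraMap ℚ L)).Monic :=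
    (minpoly.monic (Algebra.IsIntegral.isIntegral (θ : Qb))).map _
  have h1 : minpoly L (θ : Qb) = (minpoly ℚ (θ : Qb)).map (algebraMap ℚ L) := by
    refine (Polynomial.eq_of_monic_of_dvd_of_natDegree_le (minpoly.monic hθL) hPm
      (minpoly.dvd_map_of_isScalarTower ℚ L (θ : Qb)) ?_).symm
    rw [natDegree_map, hmin]
    exact hdeg
  have h2 : IsConjRoot L (θ : Qb) (g⁻¹ (θ : Qb)) := by
    rw [IsConjRoot]
    refine minpoly.eq_of_irreducible_of_monic (minpoly.irreducible hθL) ?_ (minpoly.monic hθL)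
    rw [h1, aeval_map_algebraMap]
    have h3 := minpoly.aeval ℚ (θ : Qb)
    have h4 : aeval ((g⁻¹ : GQ) (θ : Qb)) (minpoly ℚ (θ : Qb)) =
        (g⁻¹ : GQ) (aeval (θ : Qb) (minpoly ℚ (θ : Qb))) :=
      Polynomial.aeval_algHom_apply (g⁻¹ : GQ).toAlgHom (θ : Qb) _
    rw [h4, h3, map_zero]
  obtain ⟨t', ht'⟩ := isConjRoot_iff_exists_algEquiv.1 h2.symm
  let t : GQ := t'.restrictScalars ℚ
  have ht : t (θ : Qb) = g⁻¹ (θ : Qb) := ht'
  refine ⟨g * t, t⁻¹, ?_, ?_, by group⟩
  · intro x hx
    have h3 : (⟨x, hx⟩ : F) ∈ IntermediateField.adjoin ℚ {θ} := by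
      rw [hθ]
      exact IntermediateField.mem_top
    have h4 : ∀ y : F, y ∈ IntermediateField.adjoin ℚ {θ} → (g * t) (y : Qb) = (y : Qb) := by
      intro y hy
      induction hy using IntermediateField.adjoin_induction with
      | mem y hy =>
        rw [Set.mem_singleton_iff] at hy
        rw [hy]
        change g (t (θ : Qb)) = _
        rw [ht]
        change (g * g⁻¹) (θ : Qb) = _
        rw [mul_inv_cancel]
        rfl
      | algebraMap x => exact (g * t).commutes x
      | add x y _ _ hx hy => rw [IntermediateField.coe_add, map_add, hx, hy]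
      | inv x _ hx => rw [IntermediateField.coe_inv, map_inv₀, hx]
      | mul x y _ _ hx hy => rw [IntermediateField.coe_mul, map_mul, hx, hy]
    exact h4 _ h3
  · intro x hx
    have h3 : t x = x := t'.commutes ⟨x, hx⟩
    have h4 : t⁻¹ (t x) = x := by
      change (t⁻¹ * t) x = x
      rw [inv_mul_cancel]
      rfl
    rw [h3] at h4
    exact h4

end Pool.Agent.TH121.GT
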