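import Pool.Agent.TH121.GT.Coniveau
import Pool.Agent.TH121.GT.Arith
import Pool.Agent.TH121.KT.Geo
import Pool.Agent.W458.MF.Geo5

/-!
# The Galois coniveau filtration
-/

set_option autoImplicit false

open CategoryTheory AlgebraicGeometry
open scoped TensorProduct

universe u v

namespace Pool.Agent.TH121.GT

open Pool.Agent.H914 Pool.Agent.H914.VarClass Pool.Agent.H914.VarClass.Obj
  Pool.Agent.H914.WeilCohomology Pool.Agent.W534 Pool.Agent.W458.MF Pool.Agent.W458.RK
  Pool.Agent.TH121.KT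

variable {k : Type u} [Field k] {𝒱 : VarClass k} {ops : CycleOps 𝒱}
  {W : WeilCohomology.{u, v} ops} {X Y Z U : 𝒱.Obj} {p : ℕ} {Φ : FrobSystem W p}

/-- the Galois coniveau filtration in terms of a power of the Frobenius endomorphism -/
theorem gal_iff [IsAlgClosed W.K] {c s : ℕ} (hs : 0 < s) {x : W.H X} :
    x ∈ galoisConiveau Φ X c ↔ x ∈ Submodule.span W.K
      {x | ∃ κ : W.K, IsIntegral ℤ (κ / (p : W.K) ^ (s * Φ.e X * c)) ∧
        x ∈ Module.End.maxGenEigenspace (frob Φ X s) κ} := by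
  constructor
  · intro hx
    refine Submodule.span_mono ?_ hx
    rintro x ⟨μ, hμ, hx⟩
    refine ⟨μ ^ s, ?_, ?_⟩
    · have h1 := hμ.pow s
      rwa [div_pow, ← pow_mul, show Φ.e X * c * s = s * Φ.e X * c by ring] at h1
    · rw [frob_pow_eq']
      exact gen_pow_of_gen hx s
  · intro hx
    refine (Submodule.span_le (p := galoisConiveau Φ X c)).2 ?_ hx
    rintro x ⟨κ, hκ, hx⟩
    rw [frob_pow_eq'] at hx
    have h1 := mem_span_gen (T := (W.map (Φ.Fr X)).toLinearMap ^ s)
      (M := {v | ∃ ν : W.K, v ∈ Module.End.maxGenEigenspace (W.map (Φ.Fr X)).toLinearMap ν})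
      (fun v hv => by
        obtain ⟨ν, hν⟩ := hv
        exact ⟨ν ^ s, gen_pow_of_gen hν s⟩) (span_gen_top (W.map (Φ.Fr X)).toLinearMap x) hx
    refine (Submodule.span_le (p := galoisConiveau Φ X c)).2 ?_ h1
    rintro v ⟨⟨ν, hν⟩, hv⟩
    by_cases hv0 : v = 0
    · rw [hv0]
      exact Submodule.zero_mem _
    have h2 : ν ^ s = κ := eq_of_mem_gen (gen_pow_of_gen hν s) hv hv0
    refine Submodule.subset_span ⟨ν, ?_, hν⟩
    refine IsIntegral.of_pow hs ?_
    rw [div_pow, h2, ← pow_mul, show Φ.e X * c * s = s * Φ.e X * c by ring]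
    exact hκ

/-- pull-back and the Galois coniveau filtration -/
theorem gal_map [IsAlgClosed W.K] (f : Y ⟶ X) {c : ℕ} {x : W.H X}
    (hx : x ∈ galoisConiveau Φ X c) : W.map f x ∈ galoisConiveau Φ Y c := by
  obtain ⟨a, b, ha, hb, hab, h⟩ := frob_comm Φ f
  have h' : ∀ y : W.H X, frob Φ Y a (W.map f y) = W.map f (frob Φ X b y) := by
    intro y
    have := h 1 y
    rwa [mul_one, mul_one] at this
  rw [gal_iff hb] at hx
  rw [gal_iff ha]
  induction hx using Submodule.span_induction with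
  | mem x hx =>
    obtain ⟨κ, hκ, hx⟩ := hx
    refine Submodule.subset_span ⟨κ, ?_, ?_⟩
    · rw [hab]
      exact hκ
    · have h1 := gen_map (T := frob Φ X b) (T' := frob Φ Y a) (θ := (W.map f).toLinearMap)
        (c := 1) (fun y => by rw [one_smul]; exact h' y) hx
      rwa [one_mul] at h1
  | zero => rw [map_zero]; exact Submodule.zero_mem _
  | add x y _ _ hx hy => rw [map_add]; exact Submodule.add_mem _ hx hy
  | smul c x _ hx => rw [map_smul]; exact Submodule.smul_mem _ _ hx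

/-- **The generalized Tate conjecture for the factors of a product.** -/
theorem tate_factors [IsAlgClosed W.K] {c : ℕ} (hZ : HasZeroCycle Z) (hU : HasZeroCycle U)
    (h : GeneralizedTate Φ (Z.prod U) c) : GeneralizedTate Φ Z c ∧ GeneralizedTate Φ U c :=
  ⟨fun _ hx => geom_of_fst hU (h (gal_map _ hx)), fun _ hx => geom_of_snd hZ (h (gal_map _ hx))⟩

/-- **The generalized Tate conjecture for products with linearly disjoint slope fields.** -/
theorem tate_prod [IsAlgClosed W.K] [Fact p.Prime] {ι : Qb →+* PadicAlgCl p}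
    (hZi : IntegralEigenvalues Φ Z) (hUi : IntegralEigenvalues Φ U)
    {F L : IntermediateField ℚ Qb} [FiniteDimensional ℚ F] (hFL : F.LinearDisjoint L)
    (hF : FrobeniusSlopes Φ ι F Z) (hL : FrobeniusSlopes Φ ι L U) (hmin : IntegralMinSlopes Φ ι Z)
    {c : ℕ} (hZ : ∀ d ≤ c, GeneralizedTate Φ Z d) (hU : ∀ d ≤ c, GeneralizedTate Φ U d) :
    GeneralizedTate Φ (Z.prod U) c := by
  obtain ⟨Q, -, hQ, hQroot⟩ := hF
  obtain ⟨Q', -, hQ', hQroot'⟩ := hL
  obtain ⟨a, b, ha, hb, hab, h1⟩ := frob_comm Φ (fst Z U)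
  obtain ⟨a', b', ha', hb', hab', h2⟩ := frob_comm Φ (snd Z U)
  have h1' : ∀ x : W.H Z, frob Φ (Z.prod U) (a * a') (W.map (fst Z U) x) =
      W.map (fst Z U) (frob Φ Z (b * a') x) := fun x => h1 a' x
  have h2' : ∀ x : W.H U, frob Φ (Z.prod U) (a * a') (W.map (snd Z U) x) =
      W.map (snd Z U) (frob Φ U (b' * a) x) := fun x => by
    rw [mul_comm a a']
    exact h2 a x
  have hs : 0 < a * a' := Nat.mul_pos ha ha'
  set M : Set (W.H (Z.prod U)) := {z | ∃ (x : W.H Z) (y : W.H U) (μ ν : W.K),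
    x ∈ Module.End.maxGenEigenspace (W.map (Φ.Fr Z)).toLinearMap μ ∧
    y ∈ Module.End.maxGenEigenspace (W.map (Φ.Fr U)).toLinearMap ν ∧ z = extB W Z U x y} with hM
  have hMgen : ∀ (x : W.H Z) (y : W.H U) (μ ν : W.K),
      x ∈ Module.End.maxGenEigenspace (W.map (Φ.Fr Z)).toLinearMap μ →
      y ∈ Module.End.maxGenEigenspace (W.map (Φ.Fr U)).toLinearMap ν →
      extB W Z U x y ∈ Module.End.maxGenEigenspace (frob Φ (Z.prod U) (a * a'))
        (μ ^ (b * a') * ν ^ (b' * a)) := by
    intro x y μ ν hx hy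
    refine gen_mul (extB W Z U) (fun x y => frob_ext h1' h2' x y) ?_ ?_
    · rw [frob_pow_eq']
      exact gen_pow_of_gen hx _
    · rw [frob_pow_eq']
      exact gen_pow_of_gen hy _
  have hxy : ∀ (x : W.H Z) (y : W.H U), extB W Z U x y ∈ Submodule.span W.K M := by
    intro x y
    have hx := span_gen_top (W.map (Φ.Fr Z)).toLinearMap x
    have hy := span_gen_top (W.map (Φ.Fr U)).toLinearMap y
    induction hx using Submodule.span_induction with
    | mem x hx =>
      obtain ⟨ν, hν⟩ := hx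
      induction hy using Submodule.span_induction with
      | mem y hy =>
        obtain ⟨ν', hν'⟩ := hy
        exact Submodule.subset_span ⟨x, y, ν, ν', hν, hν', rfl⟩
      | zero => rw [map_zero]; exact Submodule.zero_mem _
      | add x y _ _ hx hy => rw [map_add]; exact Submodule.add_mem _ hx hy
      | smul c x _ hx => rw [map_smul]; exact Submodule.smul_mem _ _ hx
    | zero => rw [map_zero, LinearMap.zero_apply]; exact Submodule.zero_mem _
    | add x y _ _ hx hy =>
      rw [map_add, LinearMap.add_apply]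
      exact Submodule.add_mem _ hx hy
    | smul c x _ hx =>
      rw [map_smul, LinearMap.smul_apply]
      exact Submodule.smul_mem _ _ hx
  have hspan : ∀ v : W.H (Z.prod U), v ∈ Submodule.span W.K M := by
    intro v
    refine W.kunneth_induction (p := fun z => z ∈ Submodule.span W.K M) ?_ ?_ v
    · intro x y hx hy
      exact Submodule.add_mem _ hx hy
    · intro i j x _ y _
      exact hxy x y
  intro w hw
  refine (Submodule.span_le (p := geomConiveau W (Z.prod U) c)).2 ?_ hw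
  rintro w ⟨lam, hlam, hw⟩
  have hw' : w ∈ Module.End.maxGenEigenspace (frob Φ (Z.prod U) (a * a')) (lam ^ (a * a')) := by
    rw [frob_pow_eq']
    exact gen_pow_of_gen hw _
  have h3 := mem_span_gen (T := frob Φ (Z.prod U) (a * a')) (M := M) (fun v hv => by
    obtain ⟨x, y, μ, ν, hx, hy, rfl⟩ := hv
    exact ⟨_, hMgen x y μ ν hx hy⟩) (hspan w) hw'
  refine (Submodule.span_le (p := geomConiveau W (Z.prod U) c)).2 ?_ h3
  rintro v ⟨⟨x, y, μ, ν, hx, hy, rfl⟩, hv⟩
  by_cases hv0 : extB W Z U x y = 0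
  · rw [hv0]
    exact Submodule.zero_mem _
  have hx0 : x ≠ 0 := by
    rintro rfl
    exact hv0 (by rw [map_zero, LinearMap.zero_apply])
  have hy0 : y ≠ 0 := by
    rintro rfl
    exact hv0 (by rw [map_zero])
  have hμ := hasEigenvalue_of_gen hx hx0
  have hν := hasEigenvalue_of_gen hy hy0
  have hrel : μ ^ (b * a') * ν ^ (b' * a) = lam ^ (a * a') :=
    eq_of_mem_gen (hMgen x y μ ν hx hy) hv hv0
  obtain ⟨c₁, c₂, hc, hc₁, hc₂⟩ := split_slopes (p := p) (ι := ι) (eZ := Φ.e Z) (eU := Φ.e U)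
    (E := Φ.e (Z.prod U)) (A := b * a') (B := b' * a) (S := a * a') (c := c)
    (Nat.mul_pos hb' ha)
    (by
      calc b * a' * Φ.e Z = (b * Φ.e Z) * a' := by ring
        _ = a * a' * Φ.e (Z.prod U) := by rw [← hab]; ring)
    (by
      calc b' * a * Φ.e U = (b' * Φ.e U) * a := by ring
        _ = a * a' * Φ.e (Z.prod U) := by rw [← hab']; ring) hrel (hZi μ hμ) (hUi ν hν) hlam hFL hQ
    (hQroot μ hμ) hQ' (hQroot' ν hν) (hmin μ hμ)
  rw [← hc]
  exact geom_ext (hZ c₁ (by omega) (Submodule.subset_span ⟨μ, hc₁, hx⟩))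
    (hU c₂ (by omega) (Submodule.subset_span ⟨ν, hc₂, hy⟩))

end Pool.Agent.TH121.GT
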