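import Pool.Agent.TH121.KT.Orbit

/-!
# Integrality of algebraic numbers in terms of their absolute values
-/

set_option autoImplicit false

namespace Pool.Agent.TH121.GT

open Polynomial Pool.Agent.TH121.KT

section Local

variable {p : ℕ} [Fact p.Prime]

/-- the elements of norm at most one -/
def ball (p : ℕ) [Fact p.Prime] : Subring (PadicAlgCl p) where
  carrier := {x | ‖x‖ ≤ 1}
  mul_mem' := by
    intro a b ha hb
    change ‖a * b‖ ≤ 1
    rw [norm_mul]
    exact mul_le_one₀ ha (norm_nonneg _) hb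
  one_mem' := by
    change ‖(1 : PadicAlgCl p)‖ ≤ 1
    rw [norm_one]
  add_mem' := by
    intro a b ha hb
    exact (PadicAlgCl.isNonarchimedean p a b).trans (max_le ha hb)
  zero_mem' := by
    change ‖(0 : PadicAlgCl p)‖ ≤ 1
    rw [norm_zero]
    exact zero_le_one
  neg_mem' := by
    intro a ha
    change ‖-a‖ ≤ 1
    rw [norm_neg]
    exact ha

theorem mem_ball {x : PadicAlgCl p} : x ∈ ball p ↔ ‖x‖ ≤ 1 := Iff.rfl

/-- integral elements have norm at most one -/
theorem norm_le_one_of_isIntegral {x : PadicAlgCl p} (hx : IsIntegral ℤ x) : ‖x‖ ≤ 1 := by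
  obtain ⟨P, hP, hPx⟩ := hx
  by_contra hlt
  push Not at hlt
  have h1 : ∀ k < P.natDegree, ‖(P.coeff k : PadicAlgCl p) * x ^ k‖ < ‖x ^ P.natDegree‖ := by
    intro k hk
    rw [norm_mul, norm_pow, norm_pow]
    have h2 : ‖((P.coeff k : ℤ) : PadicAlgCl p)‖ ≤ 1 :=
      mem_ball.1 (intCast_mem (ball p) _)
    calc ‖((P.coeff k : ℤ) : PadicAlgCl p)‖ * ‖x‖ ^ k ≤ 1 * ‖x‖ ^ k := by gcongr
      _ = ‖x‖ ^ k := one_mul _
      _ < ‖x‖ ^ P.natDegree := pow_lt_pow_right₀ hlt hk
  have h2 : x ^ P.natDegree = -∑ k ∈ Finset.range P.natDegree,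
      (P.coeff k : PadicAlgCl p) * x ^ k := by
    have h3 := hPx
    rw [eval₂_eq_sum_range, Finset.sum_range_succ] at h3
    rw [show P.coeff P.natDegree = 1 from hP] at h3
    simp only [map_one, one_mul, eq_intCast] at h3
    rw [← add_eq_zero_iff_eq_neg, add_comm]
    exact h3
  have h4 : ‖x ^ P.natDegree‖ < ‖x ^ P.natDegree‖ := by
    rcases Nat.eq_zero_or_pos P.natDegree with h0 | h0
    · rw [h0, Finset.range_zero, Finset.sum_empty, neg_zero, pow_zero] at h2
      exact absurd h2 one_ne_zero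
    · calc ‖x ^ P.natDegree‖ = ‖∑ k ∈ Finset.range P.natDegree,
            (P.coeff k : PadicAlgCl p) * x ^ k‖ := by rw [h2, norm_neg]
        _ < ‖x ^ P.natDegree‖ := by
            obtain ⟨k, hk, hle⟩ := IsNonarchimedean.finset_image_add_of_nonempty
              (PadicAlgCl.isNonarchimedean p) (fun k => (P.coeff k : PadicAlgCl p) * x ^ k)
              (t := Finset.range P.natDegree) ⟨0, Finset.mem_range.2 h0⟩
            exact hle.trans_lt (h1 k (Finset.mem_range.1 hk))
  exact lt_irrefl _ h4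

/-- the coefficients of a product of linear factors -/
theorem coeff_prod_mem (s : Multiset (PadicAlgCl p)) (hs : ∀ x ∈ s, ‖x‖ ≤ 1) (k : ℕ) :
    ‖((s.map fun x => (X - C x)).prod).coeff k‖ ≤ 1 := by
  induction s using Multiset.induction_on generalizing k with
  | empty =>
    rw [Multiset.map_zero, Multiset.prod_zero, coeff_one]
    split_ifs
    · rw [norm_one]
    · rw [norm_zero]; exact zero_le_one
  | cons a s ih =>
    rw [Multiset.map_cons, Multiset.prod_cons, sub_mul, coeff_sub, coeff_C_mul]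
    have h1 : ∀ k, ‖(X * (s.map fun x => (X - C x)).prod).coeff k‖ ≤ 1 := by
      intro k
      cases k with
      | zero => rw [coeff_X_mul_zero, norm_zero]; exact zero_le_one
      | succ k =>
        rw [coeff_X_mul]
        exact ih (fun x hx => hs x (Multiset.mem_cons_of_mem hx)) k
    have h2 : ‖a * ((s.map fun x => (X - C x)).prod).coeff k‖ ≤ 1 := by
      rw [norm_mul]
      exact mul_le_one₀ (hs a (Multiset.mem_cons_self a s)) (norm_nonneg _)
        (ih (fun x hx => hs x (Multiset.mem_cons_of_mem hx)) k)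
    exact (ball p).sub_mem (mem_ball.2 (h1 k)) (mem_ball.2 h2)

/-- the norm of the rational numbers -/
theorem norm_ratCast (q : ℚ) : ‖(q : PadicAlgCl p)‖ = padicNorm p q := by
  have h1 : (q : PadicAlgCl p) = ((q : ℚ_[p]) : PadicAlgCl p) :=
    (map_ratCast (algebraMap ℚ_[p] (PadicAlgCl p)) q).symm
  rw [h1, PadicAlgCl.norm_extends, Padic.eq_padicNorm]

theorem norm_p : ‖(p : PadicAlgCl p)‖ = (p : ℝ)⁻¹ := by
  have h1 := norm_ratCast (p := p) (p : ℚ)
  rw [Rat.cast_natCast] at h1
  rw [h1, padicNorm.padicNorm_p_of_prime]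
  push_cast
  rfl

end Local

/-- a rational number all of whose p-adic norms are at most one is an integer -/
theorem rat_int {q : ℚ} (h : ∀ p : ℕ, p.Prime → padicNorm p q ≤ 1) : ∃ n : ℤ, (n : ℚ) = q := by
  have h1 : q.den = 1 := by
    by_contra hne
    obtain ⟨p, hp, hpd⟩ := Nat.exists_prime_and_dvd hne
    haveI : Fact p.Prime := ⟨hp⟩
    have h2 := h p hp
    have h3 : ¬ (p : ℤ) ∣ q.num := by
      intro hdvd
      have h4 := q.reduced
      have h5 : p ∣ q.num.natAbs := Int.natCast_dvd.1 hdvd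
      have h6 := Nat.dvd_gcd h5 hpd
      rw [Nat.Coprime] at h4
      rw [h4] at h6
      exact hp.one_lt.ne' (Nat.dvd_one.1 h6)
    have h4 : padicNorm p q = padicNorm p q.num / padicNorm p q.den := by
      conv_lhs => rw [← Rat.num_div_den q]
      rw [padicNorm.div]
    have h5 : padicNorm p (q.num : ℚ) = 1 := (padicNorm.int_eq_one_iff q.num).2 h3
    have h6 : padicNorm p (q.den : ℚ) < 1 := by
      have := (padicNorm.int_lt_one_iff (p := p) (q.den : ℤ)).2 (by exact_mod_cast hpd)
      exact_mod_cast this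
    have h7 : 0 < padicNorm p (q.den : ℚ) := by
      refine lt_of_le_of_ne (padicNorm.nonneg _) (Ne.symm ?_)
      exact padicNorm.nonzero (by exact_mod_cast q.den_ne_zero)
    rw [h4, h5, div_le_iff₀ h7, one_mul] at h2
    exact absurd h2 (not_le.2 h6)
  exact ⟨q.num, by
    conv_rhs => rw [← Rat.num_div_den q]
    rw [h1, Nat.cast_one, div_one]⟩

/-- **Integrality.** An algebraic number is integral if for each prime number its conjugates have
absolute value at most one at some place above it. -/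
theorem integral_of_norm_le {y : Qb} (h : ∀ (p : ℕ) [Fact p.Prime],
    ∃ ι : Qb →+* PadicAlgCl p, ∀ g : Qb ≃ₐ[ℚ] Qb, ‖ι (g y)‖ ≤ 1) : IsIntegral ℤ y := by
  have hy : IsIntegral ℚ y := Algebra.IsIntegral.isIntegral y
  have hP := minpoly.monic hy
  have hcoef : ∀ k, ∃ n : ℤ, (n : ℚ) = (minpoly ℚ y).coeff k := by
    intro k
    refine rat_int fun p hp => ?_
    haveI : Fact p.Prime := ⟨hp⟩
    obtain ⟨ι, hι⟩ := h p
    have h1 : ((minpoly ℚ y).map (algebraMap ℚ Qb)).Splits := IsAlgClosed.splits _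
    have h2 := h1.eq_prod_roots
    rw [(hP.map _).leadingCoeff, C_1, one_mul] at h2
    have h3 : (minpoly ℚ y).map (algebraMap ℚ (PadicAlgCl p)) =
        ((((minpoly ℚ y).map (algebraMap ℚ Qb)).roots.map ι).map fun x => (X - C x)).prod := by
      have h4 : (algebraMap ℚ (PadicAlgCl p)) = ι.comp (algebraMap ℚ Qb) := Subsingleton.elim _ _
      rw [h4, ← Polynomial.map_map]
      conv_lhs => rw [h2]
      rw [Polynomial.map_multiset_prod, Multiset.map_map, Multiset.map_map]
      congr 1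
      refine Multiset.map_congr rfl fun x _ => ?_
      simp
    have h5 : ((((minpoly ℚ y).coeff k : ℚ)) : PadicAlgCl p) =
        ((minpoly ℚ y).map (algebraMap ℚ (PadicAlgCl p))).coeff k := by
      rw [coeff_map, eq_ratCast]
    have h6 := norm_ratCast (p := p) ((minpoly ℚ y).coeff k)
    have h7 : ‖((((minpoly ℚ y).coeff k : ℚ)) : PadicAlgCl p)‖ ≤ 1 := by
      rw [h5, h3]
      refine coeff_prod_mem _ ?_ k
      intro x hx
      obtain ⟨z, hz, rfl⟩ := Multiset.mem_map.1 hx
      have h8 := (mem_roots (hP.map _).ne_zero).1 hz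
      rw [IsRoot, eval_map] at h8
      have h9 : IsConjRoot ℚ y z := by
        rw [IsConjRoot]
        exact minpoly.eq_of_irreducible_of_monic (minpoly.irreducible hy) h8 hP
      obtain ⟨g, hg⟩ := isConjRoot_iff_exists_algEquiv.1 h9.symm
      rw [← hg]
      exact hι g
    rw [h6] at h7
    exact_mod_cast h7
  choose f hf using hcoef
  refine ⟨∑ k ∈ Finset.range ((minpoly ℚ y).natDegree + 1), C (f k) * X ^ k, ?_, ?_⟩
  · have h1 : (∑ k ∈ Finset.range ((minpoly ℚ y).natDegree + 1), C (f k) * X ^ k : ℤ[X]).map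
        (algebraMap ℤ ℚ) = minpoly ℚ y := by
      rw [Polynomial.map_sum]
      conv_rhs => rw [(minpoly ℚ y).as_sum_range_C_mul_X_pow]
      refine Finset.sum_congr rfl fun k _ => ?_
      rw [Polynomial.map_mul, Polynomial.map_C, Polynomial.map_pow, Polynomial.map_X]
      congr 2
      exact hf k
    refine Polynomial.monic_of_injective (algebraMap ℤ ℚ).injective_int ?_
    rw [h1]
    exact hP
  · rw [eval₂_finsetSum]
    have h1 : ∀ k, eval₂ (algebraMap ℤ Qb) y (C (f k) * X ^ k) =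
        algebraMap ℚ Qb ((minpoly ℚ y).coeff k) * y ^ k := by
      intro k
      rw [eval₂_mul, eval₂_C, eval₂_pow, eval₂_X, ← hf k]
      simp
    rw [Finset.sum_congr rfl fun k _ => h1 k, ← eval₂_eq_sum_range]
    exact minpoly.aeval ℚ y

/-- an algebraic number divided by a power of `p` -/
theorem integral_div {p : ℕ} [Fact p.Prime] (ι : Qb →+* PadicAlgCl p) {β : Qb}
    (hβ : IsIntegral ℤ β) {k : ℕ} (h : ∀ g : Qb ≃ₐ[ℚ] Qb, ‖ι (g β)‖ ≤ ((p : ℝ) ^ k)⁻¹) :
    IsIntegral ℤ (β / (p : Qb) ^ k) := by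
  refine integral_of_norm_le fun l hl => ?_
  by_cases hlp : l = p
  · subst hlp
    refine ⟨ι, fun g => ?_⟩
    have hp0 : (0 : ℝ) < (l : ℝ) ^ k := by
      have := (Fact.out : l.Prime).pos
      positivity
    rw [map_div₀, map_pow, map_natCast, map_div₀, map_pow, map_natCast, norm_div, norm_pow, norm_p,
      inv_pow, div_inv_eq_mul]
    calc ‖ι (g β)‖ * (l : ℝ) ^ k ≤ ((l : ℝ) ^ k)⁻¹ * (l : ℝ) ^ k := by
          gcongr
          exact h g
      _ = 1 := inv_mul_cancel₀ hp0.ne'
  · let τ : Qb →+* PadicAlgCl l := (IsAlgClosed.lift : Qb →ₐ[ℚ] PadicAlgCl l).toRingHom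
    refine ⟨τ, fun g => ?_⟩
    have h1 : ‖(p : PadicAlgCl l)‖ = 1 := by
      have h2 := norm_ratCast (p := l) (p : ℚ)
      rw [Rat.cast_natCast] at h2
      rw [h2]
      have h3 : padicNorm l (p : ℚ) = 1 := by
        have := (padicNorm.nat_eq_one_iff (p := l) p).2 (by
          intro hd
          exact hlp ((Nat.prime_dvd_prime_iff_eq (Fact.out : l.Prime) (Fact.out : p.Prime)).1 hd))
        exact this
      rw [h3]
      norm_num
    rw [map_div₀, map_pow, map_natCast, map_div₀, map_pow, map_natCast, norm_div, norm_pow, h1,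
      one_pow, div_one]
    refine norm_le_one_of_isIntegral ?_
    exact (hβ.map g.toAlgHom.toRingHom.toIntAlgHom).map τ.toIntAlgHom

/-- conversely the absolute values of integral quotients -/
theorem norm_le_of_integral_div {p : ℕ} [Fact p.Prime] (ι : Qb →+* PadicAlgCl p) {β : Qb} {k : ℕ}
    (hβ : IsIntegral ℤ (β / (p : Qb) ^ k)) (g : Qb ≃ₐ[ℚ] Qb) :
    ‖ι (g β)‖ ≤ ((p : ℝ) ^ k)⁻¹ := by
  have h1 : ‖ι (g (β / (p : Qb) ^ k))‖ ≤ 1 :=
    norm_le_one_of_isIntegral ((hβ.map g.toAlgHom.toRingHom.toIntAlgHom).map ι.toIntAlgHom)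
  have hp0 : (0 : ℝ) < (p : ℝ) ^ k := by
    have := (Fact.out : p.Prime).pos
    positivity
  rw [map_div₀, map_pow, map_natCast, map_div₀, map_pow, map_natCast, norm_div, norm_pow, norm_p,
    inv_pow, div_inv_eq_mul] at h1
  rw [← one_div, le_div_iff₀ hp0]
  exact h1

end Pool.Agent.TH121.GT
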